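import Pool.Agent.N204.GT.Defs
import Mathlib.FieldTheory.LinearDisjoint

/-!
# Products of varieties whose Frobenius eigenvalues generate linearly disjoint fields: definitions
-/

open CategoryTheory AlgebraicGeometry

universe u v

namespace Pool.Agent.U625.GP

open Pool.Agent.H914 Pool.Agent.H914.VarClass Pool.Agent.H914.VarClass.Obj
  Pool.Agent.H914.WeilCohomology Pool.Agent.W534 Pool.Agent.R940 Pool.Agent.N204.GT
open Pool.Agent.Y163 (Big)

variable {k : Type u} [Field k] {𝒱 : VarClass k} {ops : CycleOps 𝒱}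
  {W : WeilCohomology.{u, v} ops} {p : ℕ}

/-- The complex number `α` is an eigenvalue of the Frobenius endomorphism of `Y`, over the field
with `p ^ (Φ.e Y)` elements, on one of the cohomology groups of `Y`. -/
def IsFrobeniusEigenvalue (Φ : FrobSystem W p) (σ : W.K →+* ℂ) (Y : 𝒱.Obj) (α : ℂ) : Prop :=
  ∃ i, (frobPoly Φ σ Y 1 i).IsRoot α

/-- The minimal slopes are integers: for every Frobenius eigenvalue `α` of `X` (over the field with
`q` elements) there is a `ν` such that `α / q ^ ν` is an algebraic integer, and a conjugate of `α` in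
the algebraic closure of the field of `p`-adic numbers has the absolute value `q ^ (-ν)`. -/
def HasIntegralMinimalSlopes [Fact p.Prime] (Φ : FrobSystem W p) (σ : W.K →+* ℂ)
    (X : 𝒱.Obj) : Prop :=
  ∀ α, IsFrobeniusEigenvalue Φ σ X α → ∃ ν : ℕ, IsIntegral ℤ (α / (p : ℂ) ^ (Φ.e X * ν)) ∧
    ∃ y : PadicAlgCl p, Polynomial.aeval y (minpoly ℚ α) = 0 ∧
      ‖y‖ = ((p : ℝ) ^ (Φ.e X * ν))⁻¹

/-- The product `(... ((Z × X 0) × X 1) × ...) × X (r - 1)`. -/
noncomputable def product (Z : 𝒱.Obj) : (r : ℕ) → (Fin r → 𝒱.Obj) → 𝒱.Obj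
  | 0, _ => Z
  | r + 1, X => (product Z r fun i => X i.castSucc).prod (X (Fin.last r))

/-- For all Frobenius eigenvalues `α` of `Z` and `β i` of `X i` there is an `N > 0` such that the fields
`ℚ(α ^ N)`, `ℚ(β 0 ^ N)`, ..., `ℚ(β (r - 1) ^ N)` are linearly disjoint: for all `i` the field
generated by `α ^ N` and the `β j ^ N` with `j < i` is linearly disjoint from `ℚ(β i ^ N)`. -/
def HaveDisjointFields (Φ : FrobSystem W p) (σ : W.K →+* ℂ) (Z : 𝒱.Obj) {r : ℕ}
    (X : Fin r → 𝒱.Obj) : Prop :=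
  ∀ (α : ℂ) (β : Fin r → ℂ), IsFrobeniusEigenvalue Φ σ Z α →
    (∀ i, IsFrobeniusEigenvalue Φ σ (X i) (β i)) → ∃ N : ℕ, 0 < N ∧ ∀ i : Fin r,
      (IntermediateField.adjoin ℚ ({α ^ N} ∪ {x | ∃ j < i, x = β j ^ N})).LinearDisjoint
        (IntermediateField.adjoin ℚ {β i ^ N})

/-- The class `x` on `Z × X 0 × ... × X (r - 1)` is the exterior product of classes on `Z` and the
`X i` which lie in subspaces of the cohomology in degrees with sum `i`, stable under the Frobenius
endomorphism, whose twists by integers with sum `c` are effective. -/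
def IsDecomposable (Φ : FrobSystem W p) (Z : 𝒱.Obj) : (r : ℕ) → (X : Fin r → 𝒱.Obj) →
    (i c : ℕ) → W.H (product Z r X) → Prop
  | 0, _, i, c, x => InEffective Φ i c x
  | r + 1, X, i, c, x => ∃ (i' i'' c' c'' : ℕ)
      (v : W.H (product Z r fun j => X j.castSucc)) (w : W.H (X (Fin.last r))),
      i' + i'' = i ∧ c' + c'' = c ∧ IsDecomposable Φ Z r (fun j => X j.castSucc) i' c' v ∧
        InEffective Φ i'' c'' w ∧
        x = mulApp (W.map (fst (product Z r fun j => X j.castSucc) (X (Fin.last r))))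
          (W.map (snd (product Z r fun j => X j.castSucc) (X (Fin.last r)))) v w

/-- `X` is a surface with `H^1(X) = H^3(X) = 0` for which the Tate conjecture and the semisimplicity of
Frobenius hold (for example a K3 surface). -/
def IsTateSurface (Φ : FrobSystem W p) (X : 𝒱.Obj) : Prop :=
  X.dim = 2 ∧ (∀ x, Mem (W.gr X 1) x → x = 0) ∧ (∀ x, Mem (W.gr X 3) x → x = 0) ∧
    SemisimpleTate Φ X

end Pool.Agent.U625.GP
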