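import Pool.Agent.N204.GT.Num
import Mathlib.FieldTheory.LinearDisjoint

/-!
# Divisibility of products of Weil numbers which generate linearly disjoint fields
-/

set_option linter.unusedVariables false
set_option linter.unusedSectionVars false

namespace Pool.Agent.U625.GP

open Polynomial IntermediateField TensorProduct
open Pool.Agent.R940 Pool.Agent.N204.GT

/-- Embeddings of linearly disjoint fields have a common extension. -/
lemma joint {A B : IntermediateField ℚ ℂ} (h : A.LinearDisjoint B) {Ω : Type*} [Field Ω]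
    [Algebra ℚ Ω] (φ : A →ₐ[ℚ] Ω) (ψ : B →ₐ[ℚ] Ω) {x : ℂ} {a : A} {b : B} (hx : x = a * b)
    (hint : IsIntegral ℤ x) : IsIntegral ℤ (φ a * ψ b) := by
  have h1 : A.toSubalgebra.LinearDisjoint B.toSubalgebra := linearDisjoint_iff'.1 h
  let m : (A.toSubalgebra ⊗[ℚ] B.toSubalgebra) ≃ₐ[ℚ] (A.toSubalgebra ⊔ B.toSubalgebra :
    Subalgebra ℚ ℂ) := h1.mulMap
  let g : (A.toSubalgebra ⊗[ℚ] B.toSubalgebra) →ₐ[ℚ] Ω :=
    Algebra.TensorProduct.lift (show A.toSubalgebra →ₐ[ℚ] Ω from φ)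
      (show B.toSubalgebra →ₐ[ℚ] Ω from ψ) (fun _ _ => Commute.all _ _)
  have hm : ((m ((show A.toSubalgebra from a) ⊗ₜ (show B.toSubalgebra from b)) :
      (A.toSubalgebra ⊔ B.toSubalgebra : Subalgebra ℚ ℂ)) : ℂ) = x := by
    rw [hx]
    exact h1.val_mulMap_tmul _ _
  have h2 : IsIntegral ℤ (m ((show A.toSubalgebra from a) ⊗ₜ (show B.toSubalgebra from b))) := by
    have h3 : IsIntegral ℤ (((A.toSubalgebra ⊔ B.toSubalgebra : Subalgebra ℚ ℂ).val)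
        (m ((show A.toSubalgebra from a) ⊗ₜ (show B.toSubalgebra from b)))) := by
      change IsIntegral ℤ ((m _ : (A.toSubalgebra ⊔ B.toSubalgebra : Subalgebra ℚ ℂ)) : ℂ)
      rw [hm]
      exact hint
    exact (isIntegral_algHom_iff
      ((A.toSubalgebra ⊔ B.toSubalgebra : Subalgebra ℚ ℂ).val.restrictScalars ℤ)
      Subtype.val_injective).1 h3
  have h3 : IsIntegral ℤ (g (m.symm (m ((show A.toSubalgebra from a) ⊗ₜ
      (show B.toSubalgebra from b))))) :=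
    (h2.map (m.symm.toAlgHom.restrictScalars ℤ)).map (g.restrictScalars ℤ)
  rw [AlgEquiv.symm_apply_apply] at h3
  exact h3

section Val

variable {E : Type*} [Field E] [CharZero E] {p : ℕ} [hp : Fact p.Prime]

/-- Divisibility of algebraic integers by powers of `p`. -/
lemma div_iff [Algebra.IsAlgebraic ℚ E] {x : E} (hx : IsIntegral ℤ x) (n : ℕ) :
    IsIntegral ℤ (x / (p : E) ^ n) ↔
      ∀ ψ : E →ₐ[ℚ] PadicAlgCl p, ‖ψ x‖ ≤ ((p : ℝ) ^ n)⁻¹ := by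
  have hp1 : (1 : ℝ) < p := by exact_mod_cast hp.out.one_lt
  have key : ∀ ψ : E →ₐ[ℚ] PadicAlgCl p,
      (‖ψ (x / (p : E) ^ n)‖ ≤ 1 ↔ ‖ψ x‖ ≤ ((p : ℝ) ^ n)⁻¹) := by
    intro ψ
    rw [map_div₀, map_pow, map_natCast, norm_div, norm_pow, norm_p, inv_pow,
      div_le_one (inv_pos.2 (pow_pos (zero_lt_one.trans hp1) _))]
  rw [int_iff]
  constructor
  · intro h ψ
    exact (key ψ).1 (h p ψ)
  · intro h l _ ψ
    by_cases hlp : l = p
    · subst hlp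
      exact (key ψ).2 (h ψ)
    · have hpn : ‖(p : PadicAlgCl l)‖ = 1 := by
        have h1 : ((p : ℚ_[l]) : PadicAlgCl l) = (p : PadicAlgCl l) :=
          map_natCast (algebraMap ℚ_[l] (PadicAlgCl l)) p
        rw [← h1, PadicAlgCl.norm_extends]
        have h2 : ¬ ‖(p : ℚ_[l])‖ < 1 := by
          have h3 := (Padic.norm_intCast_lt_one_iff (p := l) (k := (p : ℤ)))
          rw [Int.cast_natCast] at h3
          rw [h3]
          intro h4
          have hl : Fact l.Prime := inferInstance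
          exact hlp ((Nat.prime_dvd_prime_iff_eq hl.out hp.out).1 (by exact_mod_cast h4))
        have h5 := Padic.norm_int_le_one (p := l) (p : ℤ)
        rw [Int.cast_natCast] at h5
        exact le_antisymm h5 (not_lt.1 h2)
      rw [map_div₀, map_pow, map_natCast, norm_div, norm_pow, hpn, one_pow, div_one]
      exact (int_iff x).1 hx l ψ

end Val

variable {p : ℕ} [hp : Fact p.Prime]

/-- Embeddings with prescribed values at powers. -/
lemma exists_emb_pow {lam : ℂ} (hlam : IsIntegral ℤ lam) {y : PadicAlgCl p}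
    (hy : aeval y (minpoly ℚ lam) = 0) (M : ℕ) :
    ∃ ψ : ℚ⟮lam ^ M⟯ →ₐ[ℚ] PadicAlgCl p, ψ (AdjoinSimple.gen ℚ (lam ^ M)) = y ^ M := by
  have hq : IsIntegral ℚ lam := hlam.tower_top
  have hle : ℚ⟮lam ^ M⟯ ≤ ℚ⟮lam⟯ :=
    adjoin_simple_le_iff.2 (pow_mem (mem_adjoin_simple_self ℚ lam) M)
  let θ : ℚ⟮lam⟯ →ₐ[ℚ] PadicAlgCl p := (algHomAdjoinIntegralEquiv ℚ hq).symm
    ⟨y, by
      rw [mem_aroots]
      exact ⟨minpoly.ne_zero hq, hy⟩⟩
  have hθ : θ (AdjoinSimple.gen ℚ lam) = y := algHomAdjoinIntegralEquiv_symm_apply_gen ℚ hq _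
  refine ⟨θ.comp (inclusion hle), ?_⟩
  have h1 : inclusion hle (AdjoinSimple.gen ℚ (lam ^ M)) = (AdjoinSimple.gen ℚ lam) ^ M := by
    apply Subtype.ext
    rfl
  exact (congrArg θ h1).trans (by rw [map_pow, hθ])

/-- **The core lemma.** -/
theorem core {μ lam : ℂ} (hμ : IsIntegral ℤ μ) (hlam : IsIntegral ℤ lam) {M e₁ e₂ a b ν u : ℕ}
    (hM : 0 < M) (ha : 0 < a) (he : a * e₁ = b * e₂)
    (hd : (ℚ⟮μ ^ M⟯).LinearDisjoint ℚ⟮lam ^ M⟯) {y : PadicAlgCl p}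
    (hy : aeval y (minpoly ℚ lam) = 0) (hyn : ‖y‖ = ((p : ℝ) ^ (e₂ * u))⁻¹)
    (h : IsIntegral ℤ (μ ^ a * lam ^ b / (p : ℂ) ^ (a * e₁ * ν))) :
    IsIntegral ℤ (μ / (p : ℂ) ^ (e₁ * (ν - u))) := by
  rcases Nat.le_total ν u with h0 | h0
  · rw [Nat.sub_eq_zero_of_le h0, mul_zero, pow_zero, div_one]
    exact hμ
  obtain ⟨n, rfl⟩ := Nat.exists_eq_add_of_le h0
  rw [Nat.add_sub_cancel_left]
  have hp1 : (1 : ℝ) < p := by exact_mod_cast hp.out.one_lt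
  have hp0 : (0 : ℝ) < p := zero_lt_one.trans hp1
  have hpC : (p : ℂ) ≠ 0 := Nat.cast_ne_zero.2 hp.out.ne_zero
  set g := AdjoinSimple.gen ℚ (μ ^ M) with hg
  have hgc : (g : ℂ) = μ ^ M := rfl
  have hAlg : Algebra.IsAlgebraic ℚ ℚ⟮μ ^ M⟯ := by
    have : IsIntegral ℚ (μ ^ M) := (hμ.pow M).tower_top
    have := adjoin.finiteDimensional this
    infer_instance
  have hgi : IsIntegral ℤ g := (isIntegral_algHom_iff ((ℚ⟮μ ^ M⟯).val.restrictScalars ℤ)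
    Subtype.val_injective).1 (hμ.pow M)
  refine IsIntegral.of_pow (Nat.mul_pos hM ha) ?_
  have e1 : (μ / (p : ℂ) ^ (e₁ * n)) ^ (M * a) =
      ((g ^ a / (p : ℚ⟮μ ^ M⟯) ^ (e₁ * n * (M * a)) : ℚ⟮μ ^ M⟯) : ℂ) := by
    push_cast
    rw [hgc, div_pow, ← pow_mul, ← pow_mul]
  rw [e1]
  have h1 : IsIntegral ℤ (g ^ a / (p : ℚ⟮μ ^ M⟯) ^ (e₁ * n * (M * a))) := by
    rw [div_iff (hgi.pow a)]
    intro φ
    obtain ⟨ψ, hψ⟩ := exists_emb_pow hlam hy M
    have h2 : IsIntegral ℤ (φ (g ^ a / (p : ℚ⟮μ ^ M⟯) ^ (a * e₁ * (u + n) * M)) *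
        ψ ((AdjoinSimple.gen ℚ (lam ^ M)) ^ b)) := by
      refine joint hd φ ψ (x := (μ ^ a * lam ^ b / (p : ℂ) ^ (a * e₁ * (u + n))) ^ M) ?_ (h.pow M)
      push_cast
      rw [AdjoinSimple.coe_gen, AdjoinSimple.coe_gen, div_pow, mul_pow, ← pow_mul, ← pow_mul,
        ← pow_mul, ← pow_mul, ← pow_mul, mul_comm a M, mul_comm b M]
      ring
    have h3 := padic_integral h2
    rw [norm_mul, map_pow ψ, hψ, norm_pow, norm_pow, hyn, map_div₀, map_pow φ, map_pow φ,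
      map_natCast, norm_div, norm_pow (φ g), norm_pow (p : PadicAlgCl p), norm_p, inv_pow,
      div_inv_eq_mul, inv_pow, inv_pow, ← pow_mul, ← pow_mul] at h3
    rw [map_pow, norm_pow]
    have e2 : a * e₁ * (u + n) * M = e₁ * n * (M * a) + e₂ * u * (M * b) := by
      calc a * e₁ * (u + n) * M = e₁ * n * (M * a) + (a * e₁) * u * M := by ring
        _ = _ := by rw [he]; ring
    rw [e2, pow_add, mul_assoc, mul_assoc, mul_inv_cancel₀ (pow_ne_zero _ hp0.ne'), mul_one] at h3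
    rw [← one_div, le_div_iff₀ (pow_pos hp0 _)]
    exact h3
  exact h1.map ((ℚ⟮μ ^ M⟯).val.restrictScalars ℤ)

/-- If the slopes are integers, then so is the minimal slope. -/
lemma exists_min {lam : ℂ} (hlam : IsIntegral ℤ lam) {e : ℕ} (he : 0 < e)
    (h : ∀ y : PadicAlgCl p, aeval y (minpoly ℚ lam) = 0 → ∃ m : ℤ, ‖y‖ = ((p : ℝ) ^ e) ^ (-m)) :
    ∃ ν : ℕ, IsIntegral ℤ (lam / (p : ℂ) ^ (e * ν)) ∧
      ∃ y : PadicAlgCl p, aeval y (minpoly ℚ lam) = 0 ∧ ‖y‖ = ((p : ℝ) ^ (e * ν))⁻¹ := by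
  classical
  have hp1 : (1 : ℝ) < p := by exact_mod_cast hp.out.one_lt
  have hp0 : (0 : ℝ) < p := zero_lt_one.trans hp1
  have hq : IsIntegral ℚ lam := hlam.tower_top
  have hroots : ∀ y : PadicAlgCl p, aeval y (minpoly ℚ lam) = 0 ↔
      y ∈ (minpoly ℚ lam).rootSet (PadicAlgCl p) := by
    intro y
    rw [mem_rootSet]
    exact ⟨fun h => ⟨minpoly.ne_zero hq, h⟩, fun h => h.2⟩
  have hne : ((minpoly ℚ lam).rootSet (PadicAlgCl p)).Nonempty := by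
    obtain ⟨y, hy⟩ := IsAlgClosed.exists_aeval_eq_zero (PadicAlgCl p) (minpoly ℚ lam)
      (minpoly.degree_pos hq).ne'
    exact ⟨y, (hroots y).1 hy⟩
  obtain ⟨y, hy, hmax⟩ := Set.exists_max_image _ (fun y => ‖y‖)
    (rootSet_finite (minpoly ℚ lam) (PadicAlgCl p)) hne
  obtain ⟨m, hm⟩ := h y ((hroots y).2 hy)
  set E := ℚ⟮lam⟯ with hE
  have hAlg : Algebra.IsAlgebraic ℚ E := by
    have := adjoin.finiteDimensional hq
    infer_instance
  set g := AdjoinSimple.gen ℚ lam with hg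
  have hgi : IsIntegral ℤ g := (isIntegral_algHom_iff ((ℚ⟮lam⟯).val.restrictScalars ℤ)
    Subtype.val_injective).1 hlam
  have hgy : ∀ ψ : E →ₐ[ℚ] PadicAlgCl p, aeval (ψ g) (minpoly ℚ lam) = 0 := by
    intro ψ
    rw [← minpoly_gen ℚ lam, aeval_algHom_apply]
    exact (congrArg ψ (minpoly.aeval ℚ g)).trans (map_zero ψ)
  have hyint : ‖y‖ ≤ 1 := by
    obtain ⟨ψ, hψ⟩ := exists_emb_pow hlam ((hroots y).2 hy) 1
    have h1 : IsIntegral ℤ (AdjoinSimple.gen ℚ (lam ^ 1)) :=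
      (isIntegral_algHom_iff ((ℚ⟮lam ^ 1⟯).val.restrictScalars ℤ)
        Subtype.val_injective).1 (hlam.pow 1)
    have h2 := padic_integral (h1.map (ψ.restrictScalars ℤ))
    have h3 : (ψ.restrictScalars ℤ) (AdjoinSimple.gen ℚ (lam ^ 1)) = y := by
      rw [AlgHom.restrictScalars_apply, hψ, pow_one]
    rwa [h3] at h2
  have hm0 : 0 ≤ m := by
    by_contra hcon
    rw [hm, zpow_neg] at hyint
    have h1 : ((p : ℝ) ^ e) ^ m < 1 := zpow_lt_one_of_neg₀ (one_lt_pow₀ hp1 he.ne') (not_le.1 hcon)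
    have h2 : 0 < ((p : ℝ) ^ e) ^ m := zpow_pos (pow_pos hp0 _) _
    have h3 := one_lt_inv₀ h2 |>.2 h1
    exact absurd hyint (not_le.2 h3)
  obtain ⟨ν, rfl⟩ := Int.eq_ofNat_of_zero_le hm0
  have hyn : ‖y‖ = ((p : ℝ) ^ (e * ν))⁻¹ := by
    rw [hm, zpow_neg]
    congr 1
    rw [zpow_natCast, ← pow_mul]
  refine ⟨ν, ?_, y, (hroots y).2 hy, hyn⟩
  have h1 : IsIntegral ℤ (g / (p : E) ^ (e * ν)) := by
    rw [div_iff hgi]
    intro ψ
    rw [← hyn]
    exact hmax _ ((hroots _).1 (hgy ψ))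
  have h2 := h1.map ((ℚ⟮lam⟯).val.restrictScalars ℤ)
  have h3 : ((ℚ⟮lam⟯).val.restrictScalars ℤ) (g / (p : E) ^ (e * ν)) =
      lam / (p : ℂ) ^ (e * ν) := by
    change ((g / (p : E) ^ (e * ν) : E) : ℂ) = _
    push_cast
    rfl
  rwa [h3] at h2

end Pool.Agent.U625.GP
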