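import Pool.Agent.U625.GP.Defs
import Pool.Agent.U625.GP.Num
import Pool.Agent.N204.GT.Fin

/-!
# Splitting of effective classes on products of varieties with disjoint Frobenius fields
-/

set_option linter.unusedVariables false
set_option linter.unusedSectionVars false

open CategoryTheory AlgebraicGeometry CategoryTheory.Limits TensorProduct

universe u v

namespace Pool.Agent.U625.GP

open Pool.Agent.H914 Pool.Agent.H447 Pool.Agent.W534 Pool.Agent.Y163 VarClass Obj WeilCohomology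
  Module Polynomial
open Pool.Agent.R940 hiding mem_of_baseChange
open Pool.Agent.N204.GT
open Pool.Agent.N204.GH (cv push_cv ext_cv cv_anti push_mem_cv)
open IntermediateField (adjoin)

variable {k : Type u} [Field k] {𝒱 : VarClass k} {ops : CycleOps 𝒱}
  {W : WeilCohomology.{u, v} ops} {X Y Y' Z U S : 𝒱.Obj} {p : ℕ}
  [hp : Fact p.Prime] {Φ : FrobSystem W p} {σ : W.K →+* ℂ}

/-- Eigenvalues of the Frobenius endomorphism in the field of coefficients. -/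
def Ev (Φ : FrobSystem W p) (Y : 𝒱.Obj) (μ : W.K) : Prop :=
  ∃ w, (frobOn Φ Y 1 w).charpoly.IsRoot μ

lemma Ev.toC {μ : W.K} (h : Ev Φ Y μ) : IsFrobeniusEigenvalue Φ σ Y (σ μ) := by
  obtain ⟨w, h⟩ := h
  refine ⟨w, ?_⟩
  rw [frobPoly_eq, IsRoot.def, Polynomial.eval_map, Polynomial.eval₂_at_apply]
  rw [IsRoot.def] at h
  rw [h, map_zero]

lemma Ev.int (hRH : RiemannHyp Φ σ Y) (hint : HasIntegralPolys Φ σ Y) {μ : W.K}
    (h : Ev Φ Y μ) : IsIntegral ℤ μ := by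
  obtain ⟨w, h⟩ := h
  exact (int_root hRH hint h).1

/-- The products of two eigenclasses. -/
def IsPr (Φ : FrobSystem W p) (Z U : 𝒱.Obj) (i c : ℕ) (x : W.H (Z.prod U)) : Prop :=
  ∃ (i' i'' c' c'' : ℕ) (v : W.H Z) (w : W.H U), i' + i'' = i ∧ c' + c'' = c ∧
    Cn Φ Z i' c' v ∧ Cn Φ U i'' c'' w ∧ x = W.map (fst Z U) v * W.map (snd Z U) w

/-- Expansion of generalised eigenvectors on products. -/
lemma expand0 [IsAlgClosed W.K] {s : ℕ} (hs : 0 < s) {α₀ : W.K} {i : ℕ}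
    {c : W.H (Z.prod (pw U 0))}
    (hE : c ∈ (frob Φ (Z.prod (pw U 0)) s).maxGenEigenspace α₀)
    (hgr : c ∈ W.gr (Z.prod (pw U 0)) i) :
    ∃ A α β : ℕ, 0 < A ∧ 0 < α ∧ 0 < β ∧ A * Φ.e (Z.prod (pw U 0)) = α * Φ.e Z ∧
      A * Φ.e (Z.prod (pw U 0)) = β * Φ.e U ∧
      c ∈ Submodule.span W.K {x | ∃ (v : W.H Z) (w : W.H U) (μ lam : W.K) (i' i'' : ℕ),
        Ev Φ Z μ ∧ Ev Φ U lam ∧ v ∈ (frob Φ Z 1).maxGenEigenspace μ ∧
        w ∈ (frob Φ U 1).maxGenEigenspace lam ∧ v ∈ W.gr Z i' ∧ w ∈ W.gr U i'' ∧ i' + i'' = i ∧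
        μ ^ (α * s) * lam ^ (β * s) = α₀ ^ A ∧
        x = W.map (fst Z (pw U 0)) v * W.map (snd Z (pw U 0)) w} := by
  classical
  obtain ⟨κ, hfin, BZ, μ, hBZ⟩ := exists_ebasis Φ Z
  obtain ⟨ι, hfinU, B, lam, hB⟩ := exists_ebasis Φ U
  obtain ⟨A, α, β, hA, hα, hβ, hAα, hAβ, h1, h2⟩ := frob_prZ Φ Z U 0
  have hft : Fintype κ := Fintype.ofFinite κ
  have hft' : Fintype ι := Fintype.ofFinite ι
  obtain ⟨bs, hbs⟩ := exists_prodBasis B 0 BZ.b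
  refine ⟨A, α, β, hA, hα, hβ, hAα, hAβ, ?_⟩
  rw [← bs.sum_repr c]
  refine Submodule.sum_mem _ ?_
  rintro ⟨m, I⟩ _
  by_cases h0 : bs.repr c (m, I) = 0
  · rw [h0, zero_smul]; exact Submodule.zero_mem _
  refine Submodule.smul_mem _ _ (Submodule.subset_span ?_)
  rw [hbs]
  have hJ : BZ.deg m + ∑ l, B.deg l * cnt I l = i := by
    by_contra hne
    apply h0
    refine repr_zero (W.isInternal (Z.prod (pw U 0))).submodule_iSupIndep bs
      (fun x => BZ.deg x.1 + ∑ l, B.deg l * cnt x.2 l) (fun x => ?_) hgr hne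
    rw [show x = (x.1, x.2) from rfl, hbs]
    exact zm_gr B 0 (BZ.mem _) _
  have hEq : μ m ^ (α * s) * (∏ j, lam (I j)) ^ (β * (1 * s)) = α₀ ^ A := by
    by_contra hne
    apply h0
    have h3 : c ∈ (frob Φ (Z.prod (pw U 0)) (A * (1 * s))).maxGenEigenspace (α₀ ^ A) := by
      have h4 := gen_mono _ _ A hE
      rwa [← frob_mul_eq, show s * A = A * (1 * s) by ring] at h4
    refine repr_zero (Module.End.independent_maxGenEigenspace
      (frob Φ (Z.prod (pw U 0)) (A * (1 * s)))) bs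
      (fun x => μ x.1 ^ (α * s) * (∏ j, lam (x.2 j)) ^ (β * (1 * s))) (fun x => ?_) h3 hne
    rw [show x = (x.1, x.2) from rfl, hbs]
    exact zm_E (g := true) (show IsEgB Φ true B lam from hB) h1 h2 (hBZ x.1) s x.2
  have hcnt : ∑ l, B.deg l * cnt I l = B.deg (I 0) := by
    rw [← sum_cnt_nat, Fin.sum_univ_one]
  rw [hcnt] at hJ
  rw [Fin.prod_univ_one, one_mul] at hEq
  exact ⟨BZ.b m, B.b (I 0), μ m, lam (I 0), BZ.deg m, B.deg (I 0), ⟨_, root_charpoly hBZ m⟩,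
    ⟨_, root_charpoly hB (I 0)⟩, hBZ m, hB (I 0), BZ.mem m, B.mem (I 0), hJ, hEq, rfl⟩

lemma expand [IsAlgClosed W.K] {s : ℕ} (hs : 0 < s) {α₀ : W.K} {i : ℕ} {c : W.H (Z.prod U)}
    (hE : c ∈ (frob Φ (Z.prod U) s).maxGenEigenspace α₀) (hgr : c ∈ W.gr (Z.prod U) i) :
    ∃ A α β : ℕ, 0 < A ∧ 0 < α ∧ 0 < β ∧ A * Φ.e (Z.prod U) = α * Φ.e Z ∧
      A * Φ.e (Z.prod U) = β * Φ.e U ∧
      c ∈ Submodule.span W.K {x | ∃ (v : W.H Z) (w : W.H U) (μ lam : W.K) (i' i'' : ℕ),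
        Ev Φ Z μ ∧ Ev Φ U lam ∧ v ∈ (frob Φ Z 1).maxGenEigenspace μ ∧
        w ∈ (frob Φ U 1).maxGenEigenspace lam ∧ v ∈ W.gr Z i' ∧ w ∈ W.gr U i'' ∧ i' + i'' = i ∧
        μ ^ (α * s) * lam ^ (β * s) = α₀ ^ A ∧
        x = W.map (fst Z U) v * W.map (snd Z U) w} :=
  expand0 hs (c := c) hE hgr

/-- The disjointness for two varieties. -/
def Dj (Φ : FrobSystem W p) (σ : W.K →+* ℂ) (Z U : 𝒱.Obj) : Prop :=
  ∀ μ lam : W.K, Ev Φ Z μ → Ev Φ U lam → ∃ M : ℕ, 0 < M ∧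
    (adjoin ℚ {(σ μ) ^ M}).LinearDisjoint (adjoin ℚ {(σ lam) ^ M})

/-- **Splitting of the classes of given coniveau.** -/
theorem split2 [IsAlgClosed W.K] (hRHZ : RiemannHyp Φ σ Z) (hZ : HasIntegralPolys Φ σ Z)
    (hRHU : RiemannHyp Φ σ U) (hU : HasIntegralPolys Φ σ U) (hd : Dj Φ σ Z U)
    (hm : HasIntegralMinimalSlopes Φ σ U) {i ν : ℕ} {c : W.H (Z.prod U)}
    (hc : Cn Φ (Z.prod U) i ν c) : c ∈ Submodule.span W.K {x | IsPr Φ Z U i ν x} := by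
  obtain ⟨s, α₀, hs, hα₀, hE, hgr⟩ := hc
  obtain ⟨A, α, β, hA, hα, hβ, hAα, hAβ, h⟩ := expand hs hE hgr
  refine (Submodule.span_mono ?_) h
  rintro _ ⟨v, w, μ, lam, i', i'', hμ, hlam, hv, hw, hvg, hwg, hi, hEq, rfl⟩
  obtain ⟨M, hM, hdis⟩ := hd μ lam hμ hlam
  obtain ⟨u, hu, y, hy, hyn⟩ := hm (σ lam) hlam.toC
  have hσ : ∀ x : W.K, IsIntegral ℤ (σ x) ↔ IsIntegral ℤ x := fun x =>
    isIntegral_algHom_iff σ.toIntAlgHom σ.injective
  have key : IsIntegral ℤ ((σ μ) ^ (α * s) * (σ lam) ^ (β * s) /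
      (p : ℂ) ^ ((α * s) * Φ.e Z * ν)) := by
    have e1 : (σ μ) ^ (α * s) * (σ lam) ^ (β * s) / (p : ℂ) ^ ((α * s) * Φ.e Z * ν) =
        σ ((α₀ / (p : W.K) ^ (Φ.e (Z.prod U) * s * ν)) ^ A) := by
      rw [div_pow, ← hEq, map_div₀, map_mul, map_pow, map_pow, map_pow, map_pow, map_natCast,
        ← pow_mul]
      congr 2
      calc α * s * Φ.e Z * ν = (α * Φ.e Z) * (s * ν) := by ring
        _ = (A * Φ.e (Z.prod U)) * (s * ν) := by rw [hAα]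
        _ = _ := by ring
    rw [e1, hσ]
    exact hα₀.pow A
  have h1 : IsIntegral ℤ (σ μ / (p : ℂ) ^ (Φ.e Z * (ν - u))) :=
    core ((hσ _).2 (hμ.int hRHZ hZ)) ((hσ _).2 (hlam.int hRHU hU)) hM (Nat.mul_pos hα hs)
      (b := β * s) (e₂ := Φ.e U) (by
        calc α * s * Φ.e Z = (α * Φ.e Z) * s := by ring
          _ = (β * Φ.e U) * s := by rw [← hAα, hAβ]
          _ = _ := by ring) hdis hy hyn key
  have h2 : IsIntegral ℤ (μ / (p : W.K) ^ (Φ.e Z * 1 * (ν - u))) := by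
    rw [← hσ, map_div₀, map_pow, map_natCast, mul_one]
    exact h1
  have h3 : IsIntegral ℤ (lam / (p : W.K) ^ (Φ.e U * 1 * (ν - (ν - u)))) := by
    have hp0 : (p : W.K) ≠ 0 := Nat.cast_ne_zero.2 hp.out.ne_zero
    have hle : ν - (ν - u) ≤ u := by omega
    obtain ⟨n, hn⟩ := Nat.exists_eq_add_of_le hle
    have h4 : IsIntegral ℤ (lam / (p : W.K) ^ (Φ.e U * u)) := by
      rw [← hσ, map_div₀, map_pow, map_natCast]
      exact hu
    have e1 : lam / (p : W.K) ^ (Φ.e U * 1 * (ν - (ν - u))) =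
        lam / (p : W.K) ^ (Φ.e U * u) * (p : W.K) ^ (Φ.e U * n) := by
      rw [div_mul_eq_mul_div, div_eq_div_iff (pow_ne_zero _ hp0) (pow_ne_zero _ hp0), mul_assoc,
        ← pow_add, mul_one]
      congr 2
      rw [← Nat.mul_add]
      congr 1
      omega
    rw [e1]
    refine h4.mul (IsIntegral.pow ?_ _)
    rw [← map_natCast (algebraMap ℤ W.K)]
    exact isIntegral_algebraMap
  exact ⟨i', i'', ν - u, ν - (ν - u), v, w, hi, by omega,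
    ⟨1, μ, one_pos, h2, hv, hvg⟩, ⟨1, lam, one_pos, h3, hw, hwg⟩, rfl⟩

/-- Eigenvalues on products. -/
lemma Ev.prod [IsAlgClosed W.K] {γ : W.K} (h : Ev Φ (Z.prod U) γ) :
    ∃ (A a b : ℕ) (μ lam : W.K), 0 < A ∧ Ev Φ Z μ ∧ Ev Φ U lam ∧ γ ^ A = μ ^ a * lam ^ b := by
  obtain ⟨w, h⟩ := h
  obtain ⟨z, hz1, hz2⟩ :=
    ((Module.End.hasEigenvalue_iff_isRoot_charpoly _ _).2 h).exists_hasEigenvector
  have hz3 : frobOn Φ (Z.prod U) 1 w z = γ • z := Module.End.mem_eigenspace_iff.1 hz1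
  have hE : (z : W.H (Z.prod U)) ∈ (frob Φ (Z.prod U) 1).maxGenEigenspace γ := by
    refine (Module.End.mem_maxGenEigenspace _ _ _).2 ⟨1, ?_⟩
    rw [pow_one, LinearMap.sub_apply, sub_eq_zero]
    exact congrArg Subtype.val hz3
  obtain ⟨A, α, β, hA, hα, hβ, hAα, hAβ, h⟩ := expand one_pos hE z.2
  by_contra hcon
  apply hz2
  apply Subtype.ext
  have h4 : (z : W.H (Z.prod U)) ∈ (⊥ : Submodule W.K (W.H (Z.prod U))) := by
    rw [← Submodule.span_empty]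
    refine (Submodule.span_mono ?_) h
    rintro _ ⟨v, w, μ, lam, i', i'', hμ, hlam, hv, hw, hvg, hwg, hi, hEq, rfl⟩
    exact absurd ⟨A, α * 1, β * 1, μ, lam, hA, hμ, hlam, hEq.symm⟩ hcon
  exact (Submodule.mem_bot _).1 h4

/-- The generalized Tate conjecture for the product. -/
theorem GC_prod [IsAlgClosed W.K] (hRHZ : RiemannHyp Φ σ Z) (hZ : HasIntegralPolys Φ σ Z)
    (hRHU : RiemannHyp Φ σ U) (hU : HasIntegralPolys Φ σ U) (hd : Dj Φ σ Z U)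
    (hm : HasIntegralMinimalSlopes Φ σ U) (h1 : GC Φ Z) (h2 : GC Φ U) : GC Φ (Z.prod U) := by
  intro i ν c hc
  refine (Submodule.span_le.2 ?_) (split2 hRHZ hZ hRHU hU hd hm hc)
  rintro _ ⟨i', i'', c', c'', v, w, _, rfl, hv, hw, rfl⟩
  exact ext_cv (h1 _ _ _ hv) (h2 _ _ _ hw)

end Pool.Agent.U625.GP
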