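import Pool.Agent.U625.GP.Geo

/-!
# Products of varieties with disjoint Frobenius fields: the theorems
-/

set_option linter.unusedVariables false
set_option linter.unusedSectionVars false

open CategoryTheory AlgebraicGeometry CategoryTheory.Limits TensorProduct

universe u v

namespace Pool.Agent.U625.GP

open Pool.Agent.H914 Pool.Agent.H447 Pool.Agent.W534 Pool.Agent.Y163 VarClass Obj WeilCohomology
  Module Polynomial
open Pool.Agent.R940 hiding mem_of_baseChange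
open Pool.Agent.N204.GT
open Pool.Agent.R908 (baseFrob base_map_tmul base_map_eq base_induction_mod mem_baseChange_iff
  coef coef_baseChange)
open Pool.Agent.N204.GH (cv push_cv ext_cv cv_anti push_mem_cv)
open IntermediateField (adjoin)

variable {k : Type u} [Field k] {𝒱 : VarClass k} {ops : CycleOps 𝒱}
  {W : WeilCohomology.{u, v} ops} {X Y Y' Z U S : 𝒱.Obj} {p : ℕ}
  {Φ : FrobSystem W p} {σ : W.K →+* ℂ}

/-! ### Points -/

/-- The class of a point. -/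
def HasPt (Φ : FrobSystem W p) (Y : 𝒱.Obj) : Prop := ∃ q : W.H Y, IsTate Φ Y Y.dim q ∧ W.tr Y q = 1

lemma HasPt.of_big [Fact p.Prime] (h : HasBigDivisor ops Y) : HasPt Φ Y := by
  obtain ⟨E, hE, hbig⟩ := h
  exact exists_point hE hbig

lemma HasPt.nontrivial (h : HasPt Φ Y) : Nontrivial (W.H Y) := by
  obtain ⟨q, _, h1⟩ := h
  refine ⟨⟨q, 0, ?_⟩⟩
  rintro rfl
  rw [map_zero] at h1
  exact zero_ne_one h1

lemma HasPt.prod [Fact p.Prime] (h : HasPt Φ Z) (h' : HasPt Φ U) : HasPt Φ (Z.prod U) := by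
  obtain ⟨q, hq, h1⟩ := h
  obtain ⟨q', hq', h1'⟩ := h'
  refine ⟨W.map (fst Z U) q * W.map (snd Z U) q', ?_, by rw [W.tr_prod, h1, h1', mul_one]⟩
  obtain ⟨g1, s, hs, g2⟩ := isTate_pull (Φ := Φ) (fst Z U) hq
  obtain ⟨g1', s', hs', g2'⟩ := isTate_pull (Φ := Φ) (snd Z U) hq'
  refine ⟨?_, s * s', Nat.mul_pos hs hs', ?_⟩
  · have h3 := W.mul_mem g1 g1'
    rwa [← Nat.mul_add] at h3
  · rw [map_mul (W.map (W534.iter (Φ.Fr (Z.prod U)) (s * s'))), W534.frob_mul Φ g2 s',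
      W534.frob_mul' Φ g2' s, smul_mul_smul_comm, ← pow_add]
    congr 2
    change _ = Φ.e (Z.prod U) * (s * s') * (Z.dim + U.dim)
    ring

lemma dom_fst' (h : HasPt Φ U) : Dom Φ (Z.prod U) Z ∨ ¬ (Fact p.Prime) := by
  by_cases hp : Fact p.Prime
  · left
    obtain ⟨q, hq, h1⟩ := h
    refine ⟨fst Z U, U.dim, W.map (snd Z U) q, isTate_pull _ hq, ?_⟩
    apply W.tr_ext
    intro c
    rw [W.tr_push, one_mul, W.even_comm (W.map_mem (snd Z U) hq.1), W.tr_prod, h1, mul_one]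
  · exact Or.inr hp

lemma dom_snd'' [Fact p.Prime] (h : HasPt Φ Z) : Dom Φ (Z.prod U) U := by
  obtain ⟨q, hq, h1⟩ := h
  refine ⟨snd Z U, Z.dim, W.map (fst Z U) q, isTate_pull _ hq, ?_⟩
  rw [W.push_snd', h1, one_smul]

/-! ### Eigenvalues -/

lemma isFE_base {L : Type v} [Field L] [Algebra W.K L] {σ' : L →+* ℂ}
    (hσ : σ'.comp (algebraMap W.K L) = σ) {α : ℂ} :
    IsFrobeniusEigenvalue (baseFrob Φ L) σ' Y α ↔ IsFrobeniusEigenvalue Φ σ Y α := by
  constructor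
  · rintro ⟨i, h⟩
    rw [frobPoly_base hσ] at h
    exact ⟨i, h⟩
  · rintro ⟨i, h⟩
    refine ⟨i, ?_⟩
    rw [frobPoly_base hσ]
    exact h

lemma slopes_base [Fact p.Prime] {L : Type v} [Field L] [Algebra W.K L] {σ' : L →+* ℂ}
    (hσ : σ'.comp (algebraMap W.K L) = σ) (h : HasIntegralMinimalSlopes Φ σ Y) :
    HasIntegralMinimalSlopes (baseFrob Φ L) σ' Y := fun α hα => h α ((isFE_base hσ).1 hα)

lemma Ev.of [IsAlgClosed W.K] [Fact p.Prime] {α : ℂ} (h : IsFrobeniusEigenvalue Φ σ Y α) :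
    ∃ μ : W.K, Ev Φ Y μ ∧ σ μ = α := by
  obtain ⟨i, h⟩ := h
  rw [frobPoly_eq] at h
  have h0 : (frobOn Φ Y 1 i).charpoly ≠ 0 := (LinearMap.charpoly_monic _).ne_zero
  have h1 : α ∈ ((frobOn Φ Y 1 i).charpoly.map σ).roots := by
    rw [mem_roots ((Polynomial.map_ne_zero_iff σ.injective).2 h0)]
    exact h
  rw [(IsAlgClosed.splits (frobOn Φ Y 1 i).charpoly).roots_map σ, Multiset.mem_map] at h1
  obtain ⟨μ, h2, h3⟩ := h1
  exact ⟨μ, ⟨i, (mem_roots h0).1 h2⟩, h3⟩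

/-- Frobenius eigenvalues on products. -/
lemma fe_prod [Fact p.Prime] {γ : ℂ} (h : IsFrobeniusEigenvalue Φ σ (Z.prod U) γ) :
    ∃ (A a b : ℕ) (α β : ℂ), 0 < A ∧ IsFrobeniusEigenvalue Φ σ Z α ∧
      IsFrobeniusEigenvalue Φ σ U β ∧ γ ^ A = α ^ a * β ^ b := by
  obtain ⟨σ', hσ⟩ := exists_ext (L := AlgebraicClosure W.K) σ
  have hclosed : IsAlgClosed (baseW W (AlgebraicClosure W.K)).K :=
    inferInstanceAs (IsAlgClosed (AlgebraicClosure W.K))
  obtain ⟨γ', h1, h2⟩ := Ev.of ((isFE_base hσ).2 h)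
  obtain ⟨A, a, b, μ, lam, hA, hμ, hlam, h3⟩ := h1.prod
  refine ⟨A, a, b, σ' μ, σ' lam, hA, (isFE_base hσ).1 hμ.toC, (isFE_base hσ).1 hlam.toC, ?_⟩
  have h4 : σ' ((show AlgebraicClosure W.K from γ') ^ A) =
      σ' ((show AlgebraicClosure W.K from μ) ^ a * (show AlgebraicClosure W.K from lam) ^ b) :=
    congrArg σ' h3
  rw [map_pow, map_mul, map_pow, map_pow] at h4
  rw [← h2]
  exact h4

lemma exists_fe [Fact p.Prime] (h : HasPt Φ Y) : ∃ α, IsFrobeniusEigenvalue Φ σ Y α := by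
  have hn := h.nontrivial
  obtain ⟨σ', hσ⟩ := exists_ext (L := AlgebraicClosure W.K) σ
  have hclosed : IsAlgClosed (baseW W (AlgebraicClosure W.K)).K :=
    inferInstanceAs (IsAlgClosed (AlgebraicClosure W.K))
  obtain ⟨ι, hfin, B, lam, hB⟩ := exists_ebasis (baseFrob Φ (AlgebraicClosure W.K)) Y
  have hn' : Nontrivial ((baseW W (AlgebraicClosure W.K)).H Y) := by
    change Nontrivial (AlgebraicClosure W.K ⊗[W.K] W.H Y)
    infer_instance
  have hne : Nonempty ι := B.b.index_nonempty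
  obtain ⟨l⟩ := hne
  exact ⟨σ' (lam l), (isFE_base hσ).1 (Ev.toC ⟨_, root_charpoly hB l⟩)⟩

lemma fe_product [Fact p.Prime] (Z : 𝒱.Obj) : ∀ (r : ℕ) (X : Fin r → 𝒱.Obj) {γ : ℂ},
    IsFrobeniusEigenvalue Φ σ (product Z r X) γ →
    ∃ (A n : ℕ) (α : ℂ) (m : Fin r → ℕ) (β : Fin r → ℂ), 0 < A ∧ IsFrobeniusEigenvalue Φ σ Z α ∧
      (∀ i, IsFrobeniusEigenvalue Φ σ (X i) (β i)) ∧ γ ^ A = α ^ n * ∏ i, β i ^ m i
  | 0, X, γ, h => ⟨1, 1, γ, Fin.elim0, Fin.elim0, one_pos, h, fun i => i.elim0, by simp⟩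
  | r + 1, X, γ, h => by
    obtain ⟨A, a, b, γ', β', hA, h1, h2, h3⟩ := fe_prod h
    obtain ⟨A', n, α, m, β, hA', h4, h5, h6⟩ := fe_product Z r _ h1
    refine ⟨A * A', n * a, α, Fin.snoc (fun i => m i * a) (b * A'), Fin.snoc β β',
      Nat.mul_pos hA hA', h4, ?_, ?_⟩
    · refine Fin.lastCases ?_ fun i => ?_
      · rw [Fin.snoc_last]; exact h2
      · rw [Fin.snoc_castSucc]; exact h5 i
    · rw [Fin.prod_univ_castSucc]
      simp only [Fin.snoc_last, Fin.snoc_castSucc]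
      rw [pow_mul, h3, mul_pow, ← pow_mul, mul_comm a A', pow_mul, h6, mul_pow, ← pow_mul,
        ← Finset.prod_pow, ← pow_mul, mul_assoc]
      simp only [← pow_mul]

/-- Disjointness of two varieties. -/
def DjC (Φ : FrobSystem W p) (σ : W.K →+* ℂ) (Z U : 𝒱.Obj) : Prop :=
  ∀ α β : ℂ, IsFrobeniusEigenvalue Φ σ Z α → IsFrobeniusEigenvalue Φ σ U β →
    ∃ M : ℕ, 0 < M ∧ (adjoin ℚ {α ^ M}).LinearDisjoint (adjoin ℚ {β ^ M})

lemma ld_congr {A : IntermediateField ℚ ℂ} {x y : ℂ} (h : x = y)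
    (h' : A.LinearDisjoint (adjoin ℚ {x})) : A.LinearDisjoint (adjoin ℚ {y}) := by
  subst h
  exact h'

lemma HaveDisjointFields.last [Fact p.Prime] {Z : 𝒱.Obj} {r : ℕ} {X : Fin (r + 1) → 𝒱.Obj}
    (h : HaveDisjointFields Φ σ Z X) :
    DjC Φ σ (product Z r fun i => X i.castSucc) (X (Fin.last r)) := by
  intro γ lam hγ hlam
  obtain ⟨A, n, α, m, β, hA, h1, h2, h3⟩ := fe_product Z r _ hγ
  obtain ⟨N, hN, h4⟩ := h α (Fin.snoc β lam) h1 (by
    refine Fin.lastCases ?_ fun i => ?_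
    · rw [Fin.snoc_last]; exact hlam
    · rw [Fin.snoc_castSucc]; exact h2 i)
  have h5 := ld_congr (y := lam ^ N) (by rw [Fin.snoc_last]) (h4 (Fin.last r))
  refine ⟨A * N, Nat.mul_pos hA hN, ?_⟩
  set S : Set ℂ := {α ^ N} ∪ {x | ∃ j < Fin.last r, x = (Fin.snoc β lam : Fin (r + 1) → ℂ) j ^ N}
    with hS
  have hα : α ^ N ∈ adjoin ℚ S := IntermediateField.subset_adjoin ℚ S (Or.inl rfl)
  have hβ : ∀ i, β i ^ N ∈ adjoin ℚ S := fun i => IntermediateField.subset_adjoin ℚ S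
    (Or.inr ⟨i.castSucc, Fin.castSucc_lt_last i, by rw [Fin.snoc_castSucc]⟩)
  have h6 : γ ^ (A * N) ∈ adjoin ℚ S := by
    rw [pow_mul, h3, mul_pow, ← pow_mul, mul_comm n N, pow_mul, ← Finset.prod_pow]
    refine mul_mem (pow_mem hα _) (prod_mem fun i _ => ?_)
    rw [← pow_mul, mul_comm (m i) N, pow_mul]
    exact pow_mem (hβ i) _
  have h7 : lam ^ (A * N) ∈ adjoin ℚ {lam ^ N} := by
    rw [mul_comm A N, pow_mul]
    exact pow_mem (IntermediateField.mem_adjoin_simple_self ℚ (lam ^ N)) _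
  exact h5.of_le (IntermediateField.adjoin_simple_le_iff.2 h6)
    (IntermediateField.adjoin_simple_le_iff.2 h7)

lemma HaveDisjointFields.init [Fact p.Prime] {Z : 𝒱.Obj} {r : ℕ} {X : Fin (r + 1) → 𝒱.Obj}
    (h : HaveDisjointFields Φ σ Z X) (hpt : HasPt Φ (X (Fin.last r))) :
    HaveDisjointFields Φ σ Z fun i => X i.castSucc := by
  intro α β hα hβ
  obtain ⟨lam, hlam⟩ := exists_fe (σ := σ) hpt
  obtain ⟨N, hN, h4⟩ := h α (Fin.snoc β lam) hα (by
    refine Fin.lastCases ?_ fun i => ?_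
    · rw [Fin.snoc_last]; exact hlam
    · rw [Fin.snoc_castSucc]; exact hβ i)
  refine ⟨N, hN, fun i => ?_⟩
  have h5 := ld_congr (y := β i ^ N) (by rw [Fin.snoc_castSucc]) (h4 i.castSucc)
  refine h5.of_le_left (IntermediateField.adjoin.mono _ _ _ ?_)
  rintro x (hx | ⟨j, hj, rfl⟩)
  · exact Or.inl hx
  · refine Or.inr ⟨j.castSucc, Fin.castSucc_lt_castSucc_iff.2 hj, ?_⟩
    rw [Fin.snoc_castSucc]

/-! ### Splitting over the field of the coefficients -/

/-- Exterior products of classes in effective subspaces. -/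
def ExtU (Φ : FrobSystem W p) (Z U : 𝒱.Obj) (i c : ℕ) (x : W.H (Z.prod U)) : Prop :=
  ∃ (i' i'' c' c'' : ℕ) (V' : Submodule W.K (W.H Z)) (V'' : Submodule W.K (W.H U)) (v : W.H Z)
    (w : W.H U), i' + i'' = i ∧ c' + c'' = c ∧ Eff (AlgebraicClosure W.K) Φ i' c' V' ∧
    Eff (AlgebraicClosure W.K) Φ i'' c'' V'' ∧ v ∈ V' ∧ w ∈ V'' ∧
    x = W.map (fst Z U) v * W.map (snd Z U) w

/-- The span of the products. -/
noncomputable def spP [Fact p.Prime] (Φ : FrobSystem W p) (Z U : 𝒱.Obj) (i ν : ℕ) :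
    Submodule W.K (W.H (Z.prod U)) :=
  Submodule.span W.K {x | IsPr Φ Z U i ν x}

theorem splitU [hp : Fact p.Prime] (hWZ : WeilConjectures Φ σ Z) (hWU : WeilConjectures Φ σ U)
    (hd : DjC Φ σ Z U) (hm : HasIntegralMinimalSlopes Φ σ U) {i ν : ℕ}
    {V : Submodule W.K (W.H (Z.prod U))} (hV : Eff (AlgebraicClosure W.K) Φ i ν V) :
    V ≤ Submodule.span W.K {x | ExtU Φ Z U i ν x} := by
  obtain ⟨σ', hσ⟩ := exists_ext (L := AlgebraicClosure W.K) σ
  have hclosed : IsAlgClosed (baseW W (AlgebraicClosure W.K)).K :=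
    inferInstanceAs (IsAlgClosed (AlgebraicClosure W.K))
  set L := AlgebraicClosure W.K with hL
  intro x hx
  have h1 := up_Cn (L := L) hV hx
  have hd' : Dj (baseFrob Φ L) σ' Z U := fun μ lam hμ hlam =>
    hd _ _ ((isFE_base hσ).1 hμ.toC) ((isFE_base hσ).1 hlam.toC)
  have h2 : ∀ y : (baseW W L).H (Z.prod U), Cn (baseFrob Φ L) _ i ν y →
      (show L ⊗[W.K] W.H (Z.prod U) from y) ∈
        (Submodule.span W.K {x | ExtU Φ Z U i ν x}).baseChange L := by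
    intro y hy
    have h3 := split2 (riemann_base hσ hWZ.1) (integral_base hσ hWZ.2) (riemann_base hσ hWU.1)
      (integral_base hσ hWU.2) hd' (slopes_base hσ hm) hy
    have h4 : (spP (baseFrob Φ L) Z U i ν : Submodule L (L ⊗[W.K] W.H (Z.prod U))) ≤
        (Submodule.span W.K {x | ExtU Φ Z U i ν x}).baseChange L := by
      refine Submodule.span_le.2 ?_
      rintro _ ⟨i', i'', c', c'', v, w, g2, g3, g4, g5, rfl⟩
      obtain ⟨V', hV', hv⟩ := down_Cn g4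
      obtain ⟨V'', hV'', hw⟩ := down_Cn g5
      exact base_mul2 (W := W) (L := L) (fst Z U) (snd Z U)
        (G := Submodule.span W.K {x | ExtU Φ Z U i ν x}) (fun v' hv' w' hw' =>
          Submodule.subset_span ⟨i', i'', c', c'', V', V'', v', w', g2, g3, hV',
            hV'', hv', hw', rfl⟩) hv hw
    exact h4 h3
  have h5 : (spC (baseFrob Φ L) (Z.prod U) i ν : Submodule L (L ⊗[W.K] W.H (Z.prod U))) ≤
      (Submodule.span W.K {x | ExtU Φ Z U i ν x}).baseChange L :=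
    Submodule.span_le.2 fun y hy => h2 y hy
  exact Pool.Agent.R940.mem_of_baseChange (h5 h1)

theorem gtc_prod [hp : Fact p.Prime] (hWZ : WeilConjectures Φ σ Z) (hWU : WeilConjectures Φ σ U)
    (hd : DjC Φ σ Z U) (hm : HasIntegralMinimalSlopes Φ σ U) (h1 : GTC Φ Z) (h2 : GTC Φ U) :
    GTC Φ (Z.prod U) := by
  intro i ν V hV
  refine (splitU hWZ hWU hd hm hV).trans (Submodule.span_le.2 ?_)
  rintro _ ⟨i', i'', c', c'', V', V'', v, w, _, rfl, hV', hV'', hv, hw, rfl⟩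
  exact ext_cv (h1 _ _ V' hV' hv) (h2 _ _ V'' hV'' hw)

/-- The structure of the effective subspaces. -/
theorem decomp [hp : Fact p.Prime] (hW : ∀ Y, WeilConjectures Φ σ Y) (Z : 𝒱.Obj) :
    ∀ (r : ℕ) (X : Fin r → 𝒱.Obj), (∀ i, HasPt Φ (X i)) →
      (∀ i, HasIntegralMinimalSlopes Φ σ (X i)) → HaveDisjointFields Φ σ Z X →
      ∀ (i c : ℕ) (V : Submodule W.K (W.H (product Z r X))), IsEffective Φ i c V →
        V ≤ Submodule.span W.K {x | IsDecomposable Φ Z r X i c x}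
  | 0, X, _, _, _, i, c, V, hV => fun x hx => Submodule.subset_span ⟨V, hV, hx⟩
  | r + 1, X, hpt, hs, hd, i, c, V, hV => by
    have ih := decomp hW Z r (fun i => X i.castSucc) (fun i => hpt _) (fun i => hs _)
      (hd.init (hpt _))
    refine (splitU (hW _) (hW _) hd.last (hs _) hV).trans (Submodule.span_le.2 ?_)
    rintro _ ⟨i', i'', c', c'', V', V'', v, w, g1, g2, hV', hV'', hv, hw, rfl⟩
    have h1 := ih i' c' V' hV' hv
    change _ ∈ Submodule.span W.K {x | IsDecomposable Φ Z (r + 1) X i c x}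
    clear hv
    induction h1 using Submodule.span_induction with
    | mem v hv =>
      exact Submodule.subset_span ⟨i', i'', c', c'', v, w, g1, g2, hv, ⟨V'', hV'', hw⟩, rfl⟩
    | zero => rw [map_zero, zero_mul]; exact Submodule.zero_mem _
    | add a b _ _ ha hb => rw [map_add, add_mul]; exact Submodule.add_mem _ ha hb
    | smul c a _ ha => rw [map_smul, smul_mul_assoc]; exact Submodule.smul_mem _ _ ha

lemma hasPt_product [Fact p.Prime] (Z : 𝒱.Obj) (hZ : HasPt Φ Z) : ∀ (r : ℕ) (X : Fin r → 𝒱.Obj),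
    (∀ i, HasPt Φ (X i)) → HasPt Φ (product Z r X)
  | 0, _, _ => hZ
  | r + 1, X, h => (hasPt_product Z hZ r _ fun i => h _).prod (h _)

/-- **The generalized Tate conjecture for products.** -/
theorem gtc_product [hp : Fact p.Prime] (hW : ∀ Y, WeilConjectures Φ σ Y) (Z : 𝒱.Obj)
    (hZ : HasPt Φ Z) : ∀ (r : ℕ) (X : Fin r → 𝒱.Obj), (∀ i, HasPt Φ (X i)) →
      (∀ i, HasIntegralMinimalSlopes Φ σ (X i)) → HaveDisjointFields Φ σ Z X →
      (GTC Φ (product Z r X) ↔ GTC Φ Z ∧ ∀ i, GTC Φ (X i))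
  | 0, X, _, _, _ => ⟨fun h => ⟨h, fun i => i.elim0⟩, fun h => h.1⟩
  | r + 1, X, hpt, hs, hd => by
    have ih := gtc_product hW Z hZ r (fun i => X i.castSucc) (fun i => hpt _) (fun i => hs _)
      (hd.init (hpt _))
    constructor
    · intro h
      have h1 : GTC Φ (product Z r fun i => X i.castSucc) :=
        GTCL.of_dom (L := AlgebraicClosure W.K) ((dom_fst' (hpt (Fin.last r))).resolve_right
          (fun h => h hp)) h
      have h2 : GTC Φ (X (Fin.last r)) :=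
        GTCL.of_dom (L := AlgebraicClosure W.K)
          (dom_snd'' (hasPt_product Z hZ r _ fun i => hpt _)) h
      obtain ⟨h3, h4⟩ := ih.1 h1
      exact ⟨h3, Fin.lastCases h2 h4⟩
    · rintro ⟨h1, h2⟩
      exact gtc_prod (hW _) (hW _) hd.last (hs _) (ih.2 ⟨h1, fun i => h2 _⟩) (h2 _)

end Pool.Agent.U625.GP
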