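import Pool.Agent.U625.GP.Main

/-!
# The generalized Tate conjecture for surfaces without odd cohomology
-/

set_option linter.unusedVariables false
set_option linter.unusedSectionVars false

open CategoryTheory AlgebraicGeometry CategoryTheory.Limits TensorProduct

universe u v

namespace Pool.Agent.U625.GP

open Pool.Agent.H914 Pool.Agent.H447 Pool.Agent.W534 Pool.Agent.Y163 VarClass Obj WeilCohomology
  Module Polynomial
open Pool.Agent.R940 hiding mem_of_baseChange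
open Pool.Agent.N204.GT
open Pool.Agent.R908 (baseFrob)
open Pool.Agent.N204.GH (cv push_cv ext_cv cv_anti push_mem_cv)

variable {k : Type u} [Field k] {𝒱 : VarClass k} {ops : CycleOps 𝒱}
  {W : WeilCohomology.{u, v} ops} {X Y Y' Z U S : 𝒱.Obj} {p : ℕ}
  {Φ : FrobSystem W p} {σ : W.K →+* ℂ}

/-- The coniveau is at most one half of the degree; if it is one half, then the class is a
(generalised) Tate class. -/
lemma weights [hp : Fact p.Prime] [IsAlgClosed W.K] (hRH : RiemannHyp Φ σ Y)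
    (hint : HasIntegralPolys Φ σ Y) {i ν : ℕ} {x : W.H Y} (hx0 : x ≠ 0) (hxC : Cn Φ Y i ν x) :
    2 * ν ≤ i ∧ (2 * ν = i → ∃ s, 0 < s ∧
      x ∈ (frob Φ Y s).maxGenEigenspace ((card Φ Y s : W.K) ^ ν)) := by
  classical
  obtain ⟨ι, hfin, B, lam, hB⟩ := exists_ebasis Φ Y
  have hF := weilFamily hB hRH hint (slopeDenominator hRH hint)
  have hpK : (p : W.K) ≠ 0 := Nat.cast_ne_zero.2 hp.out.ne_zero
  have hlam0 : ∀ l, lam l ≠ 0 := fun l => gen_ne_zero (hB l) (B.b.ne_zero l)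
  have hcardY : ∀ s, card Φ Y s = card Φ Y 1 ^ s := fun s => by
    rw [← card_mul_eq, one_mul]
  have harch : ∀ l, ∀ y : ℂ, aeval y (minpoly ℚ (lam l)) = 0 →
      ‖y‖ ^ 2 = (card Φ Y 1 : ℝ) ^ B.deg l := by
    intro l y hy
    have h1 := hF.arch l y hy
    rw [h1, card, mul_one]
    push_cast
    rfl
  have hq0 : (card Φ Y 1 : W.K) ≠ 0 := card_ne Φ 1
  obtain ⟨s, α, hs, hα, hxE, hx⟩ := hxC
  obtain ⟨l, hl⟩ : ∃ l, B.b.repr x l ≠ 0 := by
    by_contra hcon
    push Not at hcon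
    exact hx0 (B.b.ext_elem fun l => by rw [hcon, map_zero]; rfl)
  have hdeg : B.deg l = i := by
    by_contra hne
    exact hl (repr_zero (W.isInternal Y).submodule_iSupIndep B.b B.deg B.mem hx hne)
  have hlam : lam l ^ s = α := by
    by_contra hne
    refine hl (repr_zero (Module.End.independent_maxGenEigenspace (frob Φ Y s)) B.b
      (fun l => lam l ^ s) (fun l => ?_) hxE hne)
    have h1 := gen_mono _ _ s (hB l)
    rwa [← frob_mul_eq, one_mul] at h1
  have hint' : IsIntegral ℤ (lam l / (card Φ Y 1 : W.K) ^ ν) := by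
    refine IsIntegral.of_pow hs ?_
    have e1 : (lam l / (card Φ Y 1 : W.K) ^ ν) ^ s = α / (p : W.K) ^ (Φ.e Y * s * ν) := by
      rw [div_pow, hlam, ← card_pow, hcardY s, Nat.cast_pow, ← pow_mul, ← pow_mul, mul_comm ν]
    rw [e1]
    exact hα
  have hq1 : (1 : ℝ) < (card Φ Y 1 : ℝ) := by
    have : 1 < card Φ Y 1 := Nat.one_lt_pow (Nat.mul_pos (Φ.e_pos Y) one_pos).ne' hp.out.one_lt
    exact_mod_cast this
  have h1 : ∀ y : ℂ, aeval y (minpoly ℚ (lam l / (card Φ Y 1 : W.K) ^ ν)) = 0 →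
      (‖y‖ ^ 2) * (card Φ Y 1 : ℝ) ^ (2 * ν) = (card Φ Y 1 : ℝ) ^ i := by
    intro y hy
    have h1 := norm_root (s := 1) (w := 1) (card_pos Φ 1) (hF.int l)
      (by rw [pow_one, pow_one]) one_pos (harch l) hy
    rw [hdeg, pow_one, pow_one] at h1
    rw [← h1]
    ring
  have hle : i ≤ 2 * ν → ∀ y : ℂ, aeval y (minpoly ℚ (lam l / (card Φ Y 1 : W.K) ^ ν)) = 0 →
      ‖y‖ ≤ 1 := by
    intro hi y hy
    have h3 := h1 y hy
    have h4 : (card Φ Y 1 : ℝ) ^ i ≤ (card Φ Y 1 : ℝ) ^ (2 * ν) :=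
      pow_le_pow_right₀ hq1.le hi
    have h5 : 0 < (card Φ Y 1 : ℝ) ^ (2 * ν) := by positivity
    by_contra hcon'
    have h6 : 1 < ‖y‖ ^ 2 := one_lt_pow₀ (not_le.1 hcon') two_ne_zero
    have h7 : (card Φ Y 1 : ℝ) ^ (2 * ν) < ‖y‖ ^ 2 * (card Φ Y 1 : ℝ) ^ (2 * ν) :=
      lt_mul_of_one_lt_left h5 h6
    rw [h3] at h7
    exact absurd h4 (not_le.2 h7)
  have hk : i ≤ 2 * ν → ∃ n : ℕ, 0 < n ∧ (lam l / (card Φ Y 1 : W.K) ^ ν) ^ n = 1 := fun hi =>
    kron hint' (div_ne_zero (hlam0 l) (pow_ne_zero _ hq0)) (hle hi)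
  refine ⟨?_, ?_⟩
  · by_contra hcon
    obtain ⟨n, hn, h3⟩ := hk (by omega)
    obtain ⟨y, hy⟩ : ∃ y : ℂ, aeval y (minpoly ℚ (lam l / (card Φ Y 1 : W.K) ^ ν)) = 0 := by
      have h3 : (minpoly ℚ (lam l / (card Φ Y 1 : W.K) ^ ν)).degree ≠ 0 :=
        (minpoly.degree_pos (hint'.tower_top (A := ℚ))).ne'
      exact IsAlgClosed.exists_aeval_eq_zero ℂ _ h3
    have h5 : y ^ n = 1 := by
      have h6 : aeval (lam l / (card Φ Y 1 : W.K) ^ ν) (X ^ n - 1 : ℤ[X]) = 0 := by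
        rw [map_sub, map_pow, aeval_X, map_one, h3, sub_self]
      have h7 := aeval_of_minpoly h6 hy
      rw [map_sub, map_pow, aeval_X, map_one, sub_eq_zero] at h7
      exact h7
    have h6 := congrArg norm h5
    rw [norm_pow, norm_one] at h6
    have h7 : ‖y‖ = 1 := (pow_eq_one_iff_of_nonneg (norm_nonneg _) hn.ne').1 h6
    have h8 := h1 y hy
    rw [h7, one_pow, one_mul] at h8
    have h9 := pow_right_injective₀ (zero_lt_one.trans hq1) hq1.ne' h8
    have h9' : 2 * ν = i := h9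
    omega
  · intro hi
    obtain ⟨n, hn, h3⟩ := hk (by omega)
    refine ⟨s * n, Nat.mul_pos hs hn, ?_⟩
    have h4 := gen_mono _ _ n hxE
    rw [← frob_mul_eq] at h4
    have h5 : α ^ n = (card Φ Y (s * n) : W.K) ^ ν := by
      rw [div_pow, div_eq_one_iff_eq (pow_ne_zero _ (pow_ne_zero _ hq0))] at h3
      rw [← hlam, ← pow_mul, mul_comm s n, pow_mul, h3, hcardY (n * s), Nat.cast_pow, ← pow_mul,
        ← pow_mul, ← pow_mul]
      congr 1
      ring
    rwa [h5] at h4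

/-- The generalized Tate conjecture for surfaces without odd cohomology. -/
lemma GC_surface [hp : Fact p.Prime] [IsAlgClosed W.K] (hRH : RiemannHyp Φ σ X)
    (hint : HasIntegralPolys Φ σ X) (hdim : X.dim = 2) (h1 : W.gr X 1 = ⊥) (h3 : W.gr X 3 = ⊥)
    (hT : ∀ j, SemisimpleTateIn Φ X j)
    (hcyc : ∀ (Y : 𝒱.Obj) (j : ℕ) (z : Y.Cycles), Y.IsCyc j z → W.cl Y z ∈ cv W j Y) :
    GC Φ X := by
  intro i ν x hx
  by_cases hx0 : x = 0
  · rw [hx0]; exact Submodule.zero_mem _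
  obtain ⟨hle, hTate⟩ := weights hRH hint hx0 hx
  have hspan : ∀ j, ∀ y ∈ spanCycles W X ((j : ℕ) : ℤ), y ∈ cv W j X := by
    intro j y hy
    refine (Submodule.span_le.2 ?_) hy
    rintro _ ⟨r, hr, z, hz, rfl⟩
    have hjr : r = j := by exact_mod_cast hr
    subst hjr
    exact hcyc X _ z hz
  have htop : (⊤ : Submodule W.K (W.H X)) ≤ cv W 0 X := by
    intro y _
    have h := push_mem_cv (W := W) (j := 0) (𝟙 X) (by omega) y
    rwa [W.push_id] at h
  have hgr : x ∈ W.gr X i := by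
    obtain ⟨s, α, hs, hα, hE, hg⟩ := hx
    exact hg
  have hi : i ≤ 4 := by
    by_contra hcon
    rw [W.gr_eq_bot X i (by omega)] at hgr
    exact hx0 ((Submodule.mem_bot _).1 hgr)
  have hi1 : i ≠ 1 := by
    rintro rfl
    rw [h1] at hgr
    exact hx0 ((Submodule.mem_bot _).1 hgr)
  have hi3 : i ≠ 3 := by
    rintro rfl
    rw [h3] at hgr
    exact hx0 ((Submodule.mem_bot _).1 hgr)
  by_cases hν : ν = 0
  · subst hν
    exact htop Submodule.mem_top
  by_cases h4 : i = 4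
  · subst h4
    have h5 : x ∈ (frob Φ X 1).maxGenEigenspace ((card Φ X 1 : W.K) ^ 2) := by
      refine (Module.End.mem_maxGenEigenspace _ _ _).2 ⟨1, ?_⟩
      rw [pow_one, LinearMap.sub_apply, LinearMap.smul_apply, Module.End.one_apply, sub_eq_zero]
      have h6 := frob_top (Φ := Φ) (P := X) (s := 1) (c := x) (by rw [hdim]; exact hgr)
      rwa [hdim] at h6
    have h6 : x ∈ spanCycles W X ((2 : ℕ) : ℤ) := hT 2 1 one_pos ⟨h5, hgr⟩
    exact cv_anti (by omega) (hspan 2 x h6)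
  · have h2 : i = 2 := by omega
    subst h2
    have h5 : ν = 1 := by omega
    subst h5
    obtain ⟨s, hs, h6⟩ := hTate rfl
    exact hspan 1 x (hT 1 s hs ⟨h6, hgr⟩)

theorem gtc_surface [hp : Fact p.Prime] (hW : WeilConjectures Φ σ X)
    (hcyc : CyclesHaveConiveau W) (hX : IsTateSurface Φ X) : GTC Φ X := by
  obtain ⟨hdim, h1, h3, hT⟩ := hX
  obtain ⟨σ', hσ⟩ := exists_ext (L := AlgebraicClosure W.K) σ
  have hclosed : IsAlgClosed (baseW W (AlgebraicClosure W.K)).K :=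
    inferInstanceAs (IsAlgClosed (AlgebraicClosure W.K))
  have hb : ∀ i, W.gr X i = ⊥ → (baseW W (AlgebraicClosure W.K)).gr X i = ⊥ := by
    intro i hi
    change (W.gr X i).baseChange (AlgebraicClosure W.K) = ⊥
    rw [hi, Submodule.baseChange_bot]
  have h4 : GC (baseFrob Φ (AlgebraicClosure W.K)) X :=
    GC_surface (riemann_base hσ hW.1) (integral_base hσ hW.2) hdim
      (hb 1 ((Submodule.eq_bot_iff _).2 h1)) (hb 3 ((Submodule.eq_bot_iff _).2 h3))
      (fun j => tate_base (semi_of hT j)) (cyc_base hcyc)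
  exact gtc_iff.2 h4

end Pool.Agent.U625.GP
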